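import Pool.Agent.Run7.h820.SR.StmJ

/-!
# Piece FBD: the area theorem for the Faber polynomial (helper108)
-/

set_option autoImplicit false
set_option maxHeartbeats 1000000
open Complex Filter Topology Set Metric MeasureTheory

namespace Pool.Agent.Run7.h108.JR

open Run7.h820.SR
open Pool.Agent.TH325.SI (mn em la)
open Pool.Agent.W677.Mar (Sg IsG0 NN hat)
open Pool.Agent.H713R2 (tc)
open Pool.Agent.H33R3.Bom (J)

theorem la_nonneg {x : ℝ} (h0 : 0 ≤ x) (h1 : x < 1) : 0 ≤ la x := by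
  unfold la
  have h2 : x ^ 2 < 1 := by nlinarith
  have := Real.log_nonpos (by linarith : 0 ≤ 1 - x ^ 2) (by nlinarith)
  linarith

/-- Cauchy-Schwarz for the Taylor coefficients -/
theorem cs_bound {A : ℂ → ℂ} (hA : DifferentiableOn ℂ A (ball 0 1)) (hA0 : A 0 = 0) {M : ℝ}
    (hM : ∀ K : ℕ, ∑ k ∈ Finset.range K, (k : ℝ) * ‖tc A k‖ ^ 2 ≤ M) {z : ℂ} (hz : ‖z‖ < 1) :
    ‖A z‖ ^ 2 ≤ M * la ‖z‖ := by
  have hx1 : ‖z‖ ^ 2 < 1 := pow_lt_one₀ (norm_nonneg _) hz two_ne_zero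
  have hzb : z ∈ ball (0:ℂ) 1 := mem_ball_zero_iff.2 hz
  have hM0 : 0 ≤ M := by simpa using hM 0
  have hc0 : tc A 0 = 0 := by rw [Pool.Agent.H713R2.tc_zero, hA0]
  have hpart : ∀ N : ℕ, ‖∑ k ∈ Finset.range N, tc A k * z ^ k‖ ^ 2 ≤ M * la ‖z‖ := by
    intro N
    have h1 : ‖∑ k ∈ Finset.range N, tc A k * z ^ k‖ ≤
        ∑ k ∈ Finset.range N, (Real.sqrt k * ‖tc A k‖) * (‖z‖ ^ k / Real.sqrt k) := by
      refine (norm_sum_le _ _).trans (Finset.sum_le_sum fun k _ => ?_)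
      rw [norm_mul, norm_pow]
      rcases Nat.eq_zero_or_pos k with h | h
      · rw [h, hc0]
        simp
      · have hk : Real.sqrt k ≠ 0 := by
          have : (0 : ℝ) < k := by exact_mod_cast h
          positivity
        apply le_of_eq
        field_simp
    have h2 := Finset.sum_mul_sq_le_sq_mul_sq (Finset.range N) (fun k : ℕ => Real.sqrt k * ‖tc A k‖)
      (fun k : ℕ => ‖z‖ ^ k / Real.sqrt k)
    have h3 : ∑ k ∈ Finset.range N, (Real.sqrt (k : ℝ) * ‖tc A k‖) ^ 2 ≤ M := by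
      refine le_trans (le_of_eq (Finset.sum_congr rfl fun k _ => ?_)) (hM N)
      rw [mul_pow, Real.sq_sqrt (Nat.cast_nonneg k)]
    have h4 : ∑ k ∈ Finset.range N, (‖z‖ ^ k / Real.sqrt (k : ℝ)) ^ 2 ≤ la ‖z‖ := by
      have h5 := Pool.Agent.W677.Mar.hasSum_log (by positivity) hx1
      refine le_trans (le_of_eq (Finset.sum_congr rfl fun k _ => ?_)) (sum_le_hasSum
        (Finset.range N) (fun k _ => by positivity) h5)
      rw [div_pow, Real.sq_sqrt (Nat.cast_nonneg k), ← pow_mul, ← pow_mul, mul_comm]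
    calc ‖∑ k ∈ Finset.range N, tc A k * z ^ k‖ ^ 2 ≤
        (∑ k ∈ Finset.range N, (Real.sqrt k * ‖tc A k‖) * (‖z‖ ^ k / Real.sqrt k)) ^ 2 := by gcongr
      _ ≤ _ := h2
      _ ≤ _ := mul_le_mul h3 h4 (Finset.sum_nonneg fun k _ => sq_nonneg _) hM0
  exact le_of_tendsto (((Pool.Agent.H713R2.hasSum_tc hA hzb).tendsto_sum_nat.norm).pow 2)
    (Eventually.of_forall hpart)

/-- two functions which agree on the punctured disc have the same circle functional -/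
theorem J_congr {R : ℝ} (hR0 : 0 < R) (hR1 : R < 1) {φ₁ φ₂ : ℂ → ℂ}
    (h : ∀ z ∈ ball (0:ℂ) 1, z ≠ 0 → φ₁ z = φ₂ z) :
    J R φ₁ (deriv φ₁) = J R φ₂ (deriv φ₂) := by
  unfold J
  congr 1
  refine intervalIntegral.integral_congr fun θ _ => ?_
  have hn : ‖circleMap 0 R θ‖ = R := by simp [abs_of_pos hR0]
  have hne : circleMap 0 R θ ≠ 0 := by
    rw [← norm_pos_iff, hn]
    exact hR0
  have hb : circleMap 0 R θ ∈ ball (0:ℂ) 1 := by
    rw [mem_ball_zero_iff, hn]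
    exact hR1
  have hev : φ₁ =ᶠ[𝓝 (circleMap 0 R θ)] φ₂ := by
    filter_upwards [isOpen_ball.mem_nhds hb, isOpen_ne.mem_nhds hne] with w hw hw0
    exact h w hw hw0
  show (starRingEnd ℂ) (φ₁ (circleMap 0 R θ)) * (circleMap 0 R θ * deriv φ₁ (circleMap 0 R θ)) =
    (starRingEnd ℂ) (φ₂ (circleMap 0 R θ)) * (circleMap 0 R θ * deriv φ₂ (circleMap 0 R θ))
  rw [h _ hb hne, hev.deriv_eq]

/-- **FBD** -/
theorem t_FBD : S_FBD := by
  intro κ γ q N P hκ hN hγ hγ0 hinj hq hq0 hP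
  obtain ⟨e, he⟩ : ∃ e : ℝ, e = Real.exp (2 * κ) := ⟨_, rfl⟩
  rw [← he] at hγ hinj hq hP
  have he0 : 0 < e := by rw [he]; exact Real.exp_pos _
  have hec : (e : ℂ) ≠ 0 := by exact_mod_cast he0.ne'
  have hball : ∀ u ∈ ball (0:ℂ) 1, (e : ℂ) * u ∈ ball (0:ℂ) e := by
    intro u hu
    rw [mem_ball_zero_iff] at hu ⊢
    rw [norm_mul, Complex.norm_real, Real.norm_of_nonneg he0.le]
    nlinarith
  set Y : ℂ → ℂ := fun u => Complex.exp (γ ((e : ℂ) * u)) with hY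
  have hmul : DifferentiableOn ℂ (fun u : ℂ => (e : ℂ) * u) (ball 0 1) := by fun_prop
  have hG : IsG0 Y := by
    refine ⟨(hγ.comp hmul hball).cexp, ?_, ?_⟩
    · simp [hY, hγ0]
    · intro u hu v hv huv
      have hu0 : u ≠ 0 := hu.2
      have hv0 : v ≠ 0 := hv.2
      have h1 : (e : ℂ) * u * Complex.exp (-γ (e * u)) = (e : ℂ) * v * Complex.exp (-γ (e * v)) := by
        have h2 : Complex.exp (γ (e * u)) / u = Complex.exp (γ (e * v)) / v := huv
        rw [Complex.exp_neg, Complex.exp_neg]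
        have h3 := Complex.exp_ne_zero (γ (e * u))
        have h4 := Complex.exp_ne_zero (γ (e * v))
        rw [div_eq_div_iff hu0 hv0] at h2
        field_simp
        linear_combination -h2
      have h2 := hinj (hball u hu.1) (hball v hv.1) h1
      exact mul_left_cancel₀ hec h2
  set V : Polynomial ℂ := P.comp (Polynomial.C ((e : ℂ)⁻¹) * Polynomial.X) with hV
  set Φ : ℂ → ℂ := fun u => q ((e : ℂ) * u) with hΦ
  have hΦd : DifferentiableOn ℂ Φ (ball 0 1) := hq.comp hmul hball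
  have hΦ0 : Φ 0 = 0 := by simp [hΦ, hq0]
  set d : ℕ → ℂ := fun k => if k = N then ((e : ℂ)⁻¹) ^ N else 0 with hd
  have hdn : ‖d N‖ = (e⁻¹) ^ N := by
    simp only [hd, if_true, norm_pow, norm_inv, Complex.norm_real, Real.norm_of_nonneg he0.le]
  have hVe : ∀ z ∈ ball (0:ℂ) 1, z ≠ 0 → V.eval (Y z / z) = Φ z + ∑' k : ℕ, d k * (z⁻¹) ^ k := by
    intro z hz hz0
    rw [tsum_eq_single N (by
      intro k hk
      simp [hd, hk])]
    simp only [hV, hd, hΦ, hY, if_true, Polynomial.eval_comp, Polynomial.eval_mul,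
      Polynomial.eval_C, Polynomial.eval_X]
    have h1 := hP ((e : ℂ) * z) (hball z hz) (mul_ne_zero hec hz0)
    have h2 : (e : ℂ)⁻¹ * (Complex.exp (γ (e * z)) / z) = Complex.exp (γ (e * z)) / (e * z) := by
      field_simp
    rw [h2, h1, mul_inv, mul_pow]
    ring
  have key : ∀ R : ℝ, 0 < R → R < 1 → ∀ K : ℕ,
      ∑ k ∈ Finset.range K, (k : ℝ) * ‖tc Φ k‖ ^ 2 * R ^ (2 * k) ≤
        N * ((e⁻¹) ^ N) ^ 2 * (R⁻¹) ^ (2 * N) := by
    intro R hR0 hR1 K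
    have hr0 : 0 < R / 2 := by linarith
    obtain ⟨g1, g2, g3⟩ := Pool.Agent.H643R3.BomC4.taskC4 R (R / 2) ((e⁻¹) ^ N / (R / 2) ^ N)
      (tc Φ) d Φ hr0 (by linarith) hR1 (by
        have : (0 : ℕ) ≠ N := by omega
        simp [hd, this]) (fun z hz => Pool.Agent.H713R2.hasSum_tc hΦd hz) (by
        intro k
        by_cases hk : k = N
        · rw [hk, hdn]
          apply le_of_eq
          field_simp
        · simp only [hd, hk, if_false, norm_zero]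
          positivity)
    have g4 := Pool.Agent.W677.Mar.t1 Y hG V R hR0 hR1
    rw [J_congr hR0 hR1 hVe, g3] at g4
    have hpi : 0 < 2 * Real.pi := by positivity
    have g5 : ∑' k : ℕ, (k : ℝ) * ‖tc Φ k‖ ^ 2 * R ^ (2 * k) ≤
        ∑' k : ℕ, (k : ℝ) * ‖d k‖ ^ 2 * (R⁻¹) ^ (2 * k) := by
      by_contra hcon
      push Not at hcon
      have := mul_pos hpi (sub_pos.2 hcon)
      linarith
    have g6 : ∑' k : ℕ, (k : ℝ) * ‖d k‖ ^ 2 * (R⁻¹) ^ (2 * k) =
        N * ((e⁻¹) ^ N) ^ 2 * (R⁻¹) ^ (2 * N) := by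
      rw [tsum_eq_single N (by
        intro k hk
        simp [hd, hk]), hdn]
    rw [g6] at g5
    exact (g1.sum_le_tsum _ (fun k _ => by positivity)).trans g5
  have hlim : ∀ K : ℕ, ∑ k ∈ Finset.range K, (k : ℝ) * ‖tc Φ k‖ ^ 2 ≤ N * ((e⁻¹) ^ N) ^ 2 := by
    intro K
    have hL : Tendsto (fun R : ℝ => ∑ k ∈ Finset.range K, (k : ℝ) * ‖tc Φ k‖ ^ 2 * R ^ (2 * k))
        (𝓝[<] 1) (𝓝 (∑ k ∈ Finset.range K, (k : ℝ) * ‖tc Φ k‖ ^ 2)) := by
      have hcont : Continuous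
          (fun R : ℝ => ∑ k ∈ Finset.range K, (k : ℝ) * ‖tc Φ k‖ ^ 2 * R ^ (2 * k)) := by
        fun_prop
      have := (hcont.tendsto 1).mono_left (nhdsWithin_le_nhds (s := Iio 1))
      simpa using this
    have hRt : Tendsto (fun R : ℝ => N * ((e⁻¹) ^ N) ^ 2 * (R⁻¹) ^ (2 * N)) (𝓝[<] 1)
        (𝓝 (N * ((e⁻¹) ^ N) ^ 2)) := by
      have hc1 : ContinuousAt (fun R : ℝ => N * ((e⁻¹) ^ N) ^ 2 * (R⁻¹) ^ (2 * N)) 1 := by
        refine continuousAt_const.mul ((continuousAt_inv₀ one_ne_zero).pow _)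
      have := hc1.tendsto.mono_left (nhdsWithin_le_nhds (s := Iio 1))
      simpa using this
    refine le_of_tendsto_of_tendsto hL hRt ?_
    have hIoo : Ioo (0:ℝ) 1 ∈ 𝓝[<] (1 : ℝ) := Ioo_mem_nhdsLT one_pos
    filter_upwards [hIoo] with R hR
    exact key R hR.1 hR.2 K
  intro w hw
  have hz1 : ‖(e : ℂ)⁻¹ * w‖ ≤ Real.exp (-(κ / 2)) := by
    rw [norm_mul, norm_inv, Complex.norm_real, Real.norm_of_nonneg he0.le]
    calc e⁻¹ * ‖w‖ ≤ e⁻¹ * Real.exp (3 / 2 * κ) :=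
          mul_le_mul_of_nonneg_left hw (inv_nonneg.2 he0.le)
      _ = Real.exp (-(κ / 2)) := by
          rw [he, ← Real.exp_neg, ← Real.exp_add]
          congr 1
          ring
  have hz2 : ‖(e : ℂ)⁻¹ * w‖ < 1 := by
    refine lt_of_le_of_lt hz1 ?_
    rw [Real.exp_lt_one_iff]
    linarith
  have hmain := cs_bound hΦd hΦ0 hlim hz2
  have hΦw : Φ ((e : ℂ)⁻¹ * w) = q w := by
    simp only [hΦ]
    rw [mul_inv_cancel_left₀ hec]
  rw [hΦw] at hmain
  have hM : (N : ℝ) * ((e⁻¹) ^ N) ^ 2 = N * Real.exp (-(4 * κ * N)) := by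
    rw [he, ← Real.exp_neg, ← Real.exp_nat_mul, ← Real.exp_nat_mul]
    congr 2
    push_cast
    ring
  rw [hM] at hmain
  refine hmain.trans ?_
  have hla : la ‖(e : ℂ)⁻¹ * w‖ ≤ bb κ := by
    unfold la bb
    have h1 : ‖(e : ℂ)⁻¹ * w‖ ^ 2 ≤ Real.exp (-κ) := by
      calc ‖(e : ℂ)⁻¹ * w‖ ^ 2 ≤ Real.exp (-(κ / 2)) ^ 2 :=
            pow_le_pow_left₀ (norm_nonneg _) hz1 2
        _ = Real.exp (-κ) := by
            rw [← Real.exp_nat_mul]
            congr 1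
            push_cast
            ring
    have h2 : Real.exp (-κ) < 1 := by
      rw [Real.exp_lt_one_iff]
      linarith
    have h3 := Real.log_le_log (by linarith : 0 < 1 - Real.exp (-κ))
      (by linarith : 1 - Real.exp (-κ) ≤ 1 - ‖(e : ℂ)⁻¹ * w‖ ^ 2)
    linarith
  exact mul_le_mul_of_nonneg_left hla (by positivity)

end Pool.Agent.Run7.h108.JR

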